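import Pool.Agent.Helper75.OE.GoalsB2

/-!
# Project OE (MP_fc0446_an): packet DICH
-/

namespace Pool.Agent.Helper5.OE

open Pool.Agent.Helper73.OE Pool.Agent.Helper75.OE

theorem dich (h1 : B_CVX) (h2 : B_EXC) : B_DICH := by
  intro H S L _ _ X P O f e U o hU
  by_cases hd : Disjoint (Ex X P O f e) (Cmp X U o)
  · exact Or.inr hd
  · obtain ⟨c, hc1, hc2⟩ := Set.not_disjoint_iff.1 hd
    obtain ⟨-, -, -, -, -, h6⟩ := h1 H S L X
    exact Or.inl (h6 U _ o c (h2 H S L X P O f e).1 hU hc1 hc2)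

end Pool.Agent.Helper5.OE
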